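import Mathlib
import Pool.Agent.Helper4.QN.Defs

/-! QN-6: facts on leverage scores. -/

set_option autoImplicit false

namespace Pool.Agent.Helper41.QN

open scoped BigOperators RealInnerProductSpace
open Pool.Agent.Helper4.QN Matrix

theorem inner_dot {d : ℕ} (x y : EuclideanSpace ℝ (Fin d)) :
    ⟪x, y⟫ = x.ofLp ⬝ᵥ y.ofLp := by
  rw [EuclideanSpace.inner_eq_star_dotProduct, dotProduct_comm]
  simp

theorem gm_mulVec {d n : ℕ} (v : Fin n → EuclideanSpace ℝ (Fin d)) (x : Fin d → ℝ) :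
    (gm (fun _ => 1) v) *ᵥ x = ∑ j, ((v j).ofLp ⬝ᵥ x) • (v j).ofLp := by
  unfold gm
  rw [Matrix.sum_mulVec]
  refine Finset.sum_congr rfl fun j _ => ?_
  rw [one_smul, Matrix.vecMulVec_mulVec]
  ext i
  simp [mul_comm]

theorem gm_symm {d n : ℕ} (v : Fin n → EuclideanSpace ℝ (Fin d)) :
    (gm (fun _ => 1) v)ᵀ = gm (fun _ => 1) v := by
  unfold gm
  rw [Matrix.transpose_sum]
  refine Finset.sum_congr rfl fun j _ => ?_
  rw [Matrix.transpose_smul, Matrix.transpose_vecMulVec]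

theorem mul_gm {d n : ℕ} (v : Fin n → EuclideanSpace ℝ (Fin d)) (P : Matrix (Fin d) (Fin d) ℝ) :
    P * gm (fun _ => 1) v = ∑ j, Matrix.vecMulVec (P *ᵥ (v j).ofLp) (v j).ofLp := by
  unfold gm
  rw [Matrix.mul_sum]
  refine Finset.sum_congr rfl fun j _ => ?_
  rw [one_smul, Matrix.mul_vecMulVec]

/-- QN-6 (leverage scores). -/
theorem leverage {d n : ℕ} (v : Fin n → EuclideanSpace ℝ (Fin d))
    (hM : 0 < (gm (fun _ => 1) v).det) :
    ∑ j, bi (gm (fun _ => 1) v) (v j) (v j) = d ∧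
    (∀ j, 0 ≤ bi (gm (fun _ => 1) v) (v j) (v j) ∧ bi (gm (fun _ => 1) v) (v j) (v j) ≤ 1) ∧
    (∀ x y, bi (gm (fun _ => 1) v) x y = bi (gm (fun _ => 1) v) y x) ∧
    (∀ x, 0 ≤ bi (gm (fun _ => 1) v) x x) ∧
    (∀ x, ∑ j, bi (gm (fun _ => 1) v) (v j) x ^ 2 = bi (gm (fun _ => 1) v) x x) ∧
    (∀ x y, ⟪x, y⟫ ^ 2 ≤ bi (gm (fun _ => 1) v) x x * ∑ j, ⟪v j, y⟫ ^ 2) ∧
    (∀ x y, ⟪x, y⟫ = ∑ j, bi (gm (fun _ => 1) v) (v j) x * ⟪v j, y⟫) := by
  set M := gm (fun _ => 1) v with hMdef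
  have hunit : IsUnit M.det := (ne_of_gt hM).isUnit
  have hinv : ∀ x : Fin d → ℝ, M *ᵥ (M⁻¹ *ᵥ x) = x := by
    intro x
    rw [Matrix.mulVec_mulVec, Matrix.mul_nonsing_inv _ hunit, Matrix.one_mulVec]
  have hsym : Mᵀ = M := gm_symm v
  have hsym' : (M⁻¹)ᵀ = M⁻¹ := by rw [Matrix.transpose_nonsing_inv, hsym]
  have h3 : ∀ x y, bi M x y = bi M y x := by
    intro x y
    unfold bi
    rw [Matrix.dotProduct_mulVec, ← Matrix.mulVec_transpose, hsym', dotProduct_comm]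
  have h7 : ∀ x y, ⟪x, y⟫ = ∑ j, bi M (v j) x * ⟪v j, y⟫ := by
    intro x y
    have h := congrArg (fun z => z ⬝ᵥ y.ofLp) (hinv x.ofLp)
    simp only at h
    rw [hMdef, gm_mulVec, ← hMdef, sum_dotProduct] at h
    rw [inner_dot, ← h]
    refine Finset.sum_congr rfl fun j _ => ?_
    rw [inner_dot, smul_dotProduct, smul_eq_mul]
    rfl
  have h5 : ∀ x, ∑ j, bi M (v j) x ^ 2 = bi M x x := by
    intro x
    have h := congrArg (fun z => z ⬝ᵥ (M⁻¹ *ᵥ x.ofLp)) (hinv x.ofLp)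
    simp only at h
    rw [hMdef, gm_mulVec, ← hMdef, sum_dotProduct] at h
    unfold bi
    rw [← h]
    refine Finset.sum_congr rfl fun j _ => ?_
    rw [smul_dotProduct, smul_eq_mul, sq]
  have h4 : ∀ x, 0 ≤ bi M x x := by
    intro x
    rw [← h5]
    positivity
  have h2 : ∀ j, 0 ≤ bi M (v j) (v j) ∧ bi M (v j) (v j) ≤ 1 := by
    intro j
    refine ⟨h4 _, ?_⟩
    have h := h5 (v j)
    have h1 : bi M (v j) (v j) ^ 2 ≤ ∑ i, bi M (v i) (v j) ^ 2 :=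
      Finset.single_le_sum (f := fun i => bi M (v i) (v j) ^ 2) (fun i _ => sq_nonneg _)
        (Finset.mem_univ j)
    rw [h] at h1
    by_contra hc
    push Not at hc
    nlinarith
  have h6 : ∀ x y, ⟪x, y⟫ ^ 2 ≤ bi M x x * ∑ j, ⟪v j, y⟫ ^ 2 := by
    intro x y
    rw [h7 x y, ← h5 x]
    exact Finset.sum_mul_sq_le_sq_mul_sq _ _ _
  have h1 : ∑ j, bi M (v j) (v j) = d := by
    have h : (M⁻¹ * M).trace = d := by
      rw [Matrix.nonsing_inv_mul _ hunit, Matrix.trace_one, Fintype.card_fin]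
    rw [← h]
    have e : M⁻¹ * M = ∑ j, Matrix.vecMulVec (M⁻¹ *ᵥ (v j).ofLp) (v j).ofLp := mul_gm v M⁻¹
    rw [e, Matrix.trace_sum]
    refine Finset.sum_congr rfl fun j _ => ?_
    rw [Matrix.trace_vecMulVec, dotProduct_comm]
    rfl
  exact ⟨h1, h2, h3, h4, h5, h6, h7⟩

end Pool.Agent.Helper41.QN
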